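import Mathlib

set_option autoImplicit false

/-!
Mobius pattern complexity is not bounded by 2 to the power (a constant times a sublinear power of
the Mobius sparsity).
-/

namespace Pool.Agent.Results.MP_e3e9ef_lc.PatternLinear

open Finset

/-- The truth value of a bit, as a real number: 1 for true and 0 for false. -/
def bv (b : Bool) : ℝ := if b then 1 else 0

/-- AND_S(x): the conjunction of the bits of x with index in S (true for S empty). -/
def andOn {n : ℕ} (S : Finset (Fin n)) (x : Fin n → Bool) : Bool := decide (∀ i ∈ S, x i = true)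

/-- The coefficient c_S of AND_S in the unique multilinear representation of f in the AND basis,
given by Mobius inversion. See `mobius_rep` and `mobius_unique`. -/
noncomputable def mobiusCoeff {n : ℕ} (f : (Fin n → Bool) → Bool) (S : Finset (Fin n)) : ℝ :=
  ∑ T ∈ S.powerset, (-1 : ℝ) ^ (S.card - T.card) * bv (f (fun i => decide (i ∈ T)))

/-- The Mobius support of f: the sets S with c_S nonzero. -/
noncomputable def mobiusSupport {n : ℕ} (f : (Fin n → Bool) → Bool) : Finset (Finset (Fin n)) :=
  Finset.univ.filter (fun S => mobiusCoeff f S ≠ 0)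

/-- The Mobius sparsity of f. -/
noncomputable def spar {n : ℕ} (f : (Fin n → Bool) → Bool) : ℕ := (mobiusSupport f).card

/-- The Mobius pattern of x with respect to f: the vector of the values AND_S(x), S in the Mobius
support of f. -/
noncomputable def mobiusPattern {n : ℕ} (f : (Fin n → Bool) → Bool) (x : Fin n → Bool) :
    {S // S ∈ mobiusSupport f} → Bool :=
  fun S => andOn S.1 x

/-- The Mobius pattern complexity of f: the number of distinct Mobius patterns. -/
noncomputable def patComplexity {n : ℕ} (f : (Fin n → Bool) → Bool) : ℕ :=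
  Set.ncard (Set.range (mobiusPattern f))

/-! ### The Mobius coefficients are the coefficients of the unique representation -/

lemma bv_andOn_eq_prod {n : ℕ} (S : Finset (Fin n)) (x : Fin n → Bool) :
    bv (andOn S x) = ∏ i ∈ S, bv (x i) := by
  unfold andOn bv
  by_cases h : ∀ i ∈ S, x i = true
  · rw [decide_eq_true h, if_pos rfl, Finset.prod_eq_one]
    intro i hi
    simp [h i hi]
  · rw [decide_eq_false h, if_neg (by simp)]
    push Not at h
    obtain ⟨i, hi, hx⟩ := h
    symm
    apply Finset.prod_eq_zero hi
    simp [hx]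

lemma sum_Icc_sign {n : ℕ} {U S : Finset (Fin n)} (h : U ⊆ S) :
    ∑ T ∈ Finset.Icc U S, (-1 : ℝ) ^ T.card = if U = S then (-1 : ℝ) ^ S.card else 0 := by
  rw [Finset.Icc_eq_image_powerset h, Finset.sum_image]
  · have h1 : ∀ W ∈ (S \ U).powerset, (-1 : ℝ) ^ (U ∪ W).card
        = (-1 : ℝ) ^ U.card * (((-1 : ℤ) ^ W.card : ℤ) : ℝ) := by
      intro W hW
      rw [Finset.mem_powerset] at hW
      rw [Finset.card_union_of_disjoint, pow_add]
      · push_cast
        ring
      · exact (Finset.disjoint_of_subset_left hW Finset.sdiff_disjoint).symm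
    rw [Finset.sum_congr rfl h1, ← Finset.mul_sum]
    have h2 : (∑ W ∈ (S \ U).powerset, (((-1 : ℤ) ^ W.card : ℤ) : ℝ))
        = ((∑ W ∈ (S \ U).powerset, ((-1 : ℤ) ^ W.card) : ℤ) : ℝ) := by
      push_cast
      rfl
    rw [h2, Finset.sum_powerset_neg_one_pow_card]
    by_cases hUS : U = S
    · subst hUS
      simp
    · have : S \ U ≠ ∅ := by
        intro he
        apply hUS
        exact Finset.Subset.antisymm h (Finset.sdiff_eq_empty_iff_subset.mp he)
      simp [this, hUS]
  · intro W hW W' hW' hWW
    simp only [Finset.coe_powerset, Set.mem_preimage, Set.mem_powerset_iff, Finset.coe_subset]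
      at hW hW'
    have hd : Disjoint U W := (Finset.disjoint_of_subset_left hW Finset.sdiff_disjoint).symm
    have hd' : Disjoint U W' := (Finset.disjoint_of_subset_left hW' Finset.sdiff_disjoint).symm
    have hWW' : U ∪ W = U ∪ W' := hWW
    ext i
    constructor
    · intro hi
      have : i ∈ U ∪ W' := by rw [← hWW']; exact Finset.mem_union_right _ hi
      rcases Finset.mem_union.mp this with h' | h'
      · exact absurd hi (Finset.disjoint_left.mp hd h')
      · exact h'
    · intro hi
      have : i ∈ U ∪ W := by rw [hWW']; exact Finset.mem_union_right _ hi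
      rcases Finset.mem_union.mp this with h' | h'
      · exact absurd hi (Finset.disjoint_left.mp hd' h')
      · exact h'

lemma coeff_eq {n : ℕ} (f : (Fin n → Bool) → Bool) (S : Finset (Fin n)) :
    mobiusCoeff f S = (-1 : ℝ) ^ S.card *
      ∑ T ∈ S.powerset, (-1 : ℝ) ^ T.card * bv (f (fun i => decide (i ∈ T))) := by
  unfold mobiusCoeff
  rw [Finset.mul_sum]
  refine Finset.sum_congr rfl ?_
  intro T hT
  have hle : T.card ≤ S.card := Finset.card_le_card (Finset.mem_powerset.mp hT)
  have : (-1 : ℝ) ^ (S.card - T.card) = (-1 : ℝ) ^ S.card * (-1 : ℝ) ^ T.card := by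
    have h2 : (-1 : ℝ) ^ S.card = (-1 : ℝ) ^ (S.card - T.card) * (-1 : ℝ) ^ T.card := by
      rw [← pow_add, Nat.sub_add_cancel hle]
    rw [h2, mul_assoc, ← pow_add, ← two_mul, pow_mul]
    simp
  rw [this, mul_assoc]

lemma andOn_indicator {n : ℕ} (S T : Finset (Fin n)) :
    bv (andOn S (fun i => decide (i ∈ T))) = if S ⊆ T then 1 else 0 := by
  unfold andOn bv
  by_cases h : S ⊆ T
  · rw [if_pos h, if_pos]
    simp only [decide_eq_true_eq]
    intro i hi
    exact h hi
  · rw [if_neg h, if_neg]
    simp only [decide_eq_true_eq]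
    intro h'
    exact h (fun i hi => h' i hi)

/-- Every f is the combination of the functions AND_S with coefficients `mobiusCoeff f S`. -/
lemma mobius_rep {n : ℕ} (f : (Fin n → Bool) → Bool) (x : Fin n → Bool) :
    bv (f x) = ∑ S : Finset (Fin n), mobiusCoeff f S * ∏ i ∈ S, bv (x i) := by
  classical
  set R : Finset (Fin n) := Finset.univ.filter (fun i => x i = true) with hR
  have hx : x = fun i => decide (i ∈ R) := by
    funext i
    cases h : x i <;> simp [hR, h]
  have h0 : ∀ S : Finset (Fin n), mobiusCoeff f S * ∏ i ∈ S, bv (x i)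
      = if S ⊆ R then mobiusCoeff f S else 0 := by
    intro S
    rw [← bv_andOn_eq_prod]
    conv_lhs => rw [hx]
    rw [andOn_indicator]
    split_ifs <;> simp
  rw [Finset.sum_congr rfl (fun S _ => h0 S), ← Finset.sum_filter]
  have h1 : (Finset.univ.filter (fun S : Finset (Fin n) => S ⊆ R)) = R.powerset := by
    ext S; simp
  rw [h1]
  have h2 : ∀ S ∈ R.powerset, mobiusCoeff f S
      = ∑ T ∈ R.powerset, if T ⊆ S then
          (-1 : ℝ) ^ S.card * ((-1 : ℝ) ^ T.card * bv (f (fun i => decide (i ∈ T)))) else 0 := by
    intro S hS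
    rw [coeff_eq, Finset.mul_sum, ← Finset.sum_filter]
    refine Finset.sum_congr ?_ (fun _ _ => rfl)
    ext T
    simp only [Finset.mem_powerset, Finset.mem_filter]
    constructor
    · intro h
      exact ⟨h.trans (Finset.mem_powerset.mp hS), h⟩
    · intro h
      exact h.2
  rw [Finset.sum_congr rfl h2, Finset.sum_comm]
  have h3 : ∀ T ∈ R.powerset, (∑ S ∈ R.powerset, if T ⊆ S then
          (-1 : ℝ) ^ S.card * ((-1 : ℝ) ^ T.card * bv (f (fun i => decide (i ∈ T)))) else 0)
      = if T = R then bv (f (fun i => decide (i ∈ T))) else 0 := by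
    intro T hT
    rw [← Finset.sum_filter, ← Finset.sum_mul]
    have h4 : R.powerset.filter (fun S => T ⊆ S) = Finset.Icc T R := by
      ext S
      simp [and_comm]
    rw [h4, sum_Icc_sign (Finset.mem_powerset.mp hT)]
    split_ifs with h
    · subst h
      rw [← mul_assoc, ← pow_add, ← two_mul, pow_mul]
      simp
    · simp
  rw [Finset.sum_congr rfl h3, Finset.sum_ite_eq' R.powerset R]
  rw [if_pos (Finset.mem_powerset_self R), ← hx]

/-- The representation of f in the AND basis is unique. -/
lemma mobius_unique {n : ℕ} (f : (Fin n → Bool) → Bool) (c : Finset (Fin n) → ℝ)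
    (hc : ∀ x, bv (f x) = ∑ S : Finset (Fin n), c S * ∏ i ∈ S, bv (x i)) :
    mobiusCoeff f = c := by
  classical
  have key : ∀ T : Finset (Fin n), ∑ S ∈ T.powerset, (mobiusCoeff f S - c S) = 0 := by
    intro T
    have h1 := mobius_rep f (fun i => decide (i ∈ T))
    have h2 := hc (fun i => decide (i ∈ T))
    rw [h1] at h2
    have h3 : ∀ d : Finset (Fin n) → ℝ,
        (∑ S : Finset (Fin n), d S * ∏ i ∈ S, bv ((fun i => decide (i ∈ T)) i))
          = ∑ S ∈ T.powerset, d S := by
      intro d
      have h0 : ∀ S : Finset (Fin n), d S * ∏ i ∈ S, bv ((fun i => decide (i ∈ T)) i)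
          = if S ⊆ T then d S else 0 := by
        intro S
        rw [← bv_andOn_eq_prod, andOn_indicator]
        split_ifs <;> simp
      rw [Finset.sum_congr rfl (fun S _ => h0 S), ← Finset.sum_filter]
      congr 1
      ext S; simp
    rw [h3, h3] at h2
    rw [Finset.sum_sub_distrib, h2, sub_self]
  funext S
  have hS : ∀ m : ℕ, ∀ S : Finset (Fin n), S.card = m → mobiusCoeff f S - c S = 0 := by
    intro m
    induction m using Nat.strong_induction_on with
    | _ m ih =>
      intro S hSm
      have h := key S
      rw [Finset.sum_eq_single_of_mem S (Finset.mem_powerset_self S)] at h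
      · exact h
      · intro U hU hUS
        have hss : U ⊂ S := Finset.ssubset_iff_subset_ne.mpr ⟨Finset.mem_powerset.mp hU, hUS⟩
        exact ih U.card (hSm ▸ Finset.card_lt_card hss) U rfl
  exact sub_eq_zero.mp (hS S.card S rfl)

/-! ### The family of functions -/

/-- The index of the i-th selector variable. -/
def sx {k : ℕ} (i : Fin k) : Fin (k + k) := Fin.castAdd k i

/-- The index of the i-th data variable. -/
def dy {k : ℕ} (i : Fin k) : Fin (k + k) := Fin.natAdd k i

/-- The function which equals the i-th data variable if the i-th selector variable is the only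
selector variable equal to 0, and equals 0 if no such i exists. -/
def sel (k : ℕ) (z : Fin (k + k) → Bool) : Bool :=
  decide (∃ i : Fin k, z (dy i) = true ∧ z (sx i) = false ∧ ∀ l : Fin k, l ≠ i → z (sx l) = true)

lemma sx_inj {k : ℕ} {i j : Fin k} (h : sx i = sx j) : i = j := Fin.castAdd_injective _ _ h

lemma dy_inj {k : ℕ} {i j : Fin k} (h : dy i = dy j) : i = j := Fin.natAdd_injective _ _ h

lemma sx_ne_dy {k : ℕ} (i j : Fin k) : sx i ≠ dy j := by
  intro h
  have := congrArg Fin.val h
  simp [sx, dy] at this
  omega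

/-- The monomial y_i times the product of all x_l with l distinct from i. -/
def monA {k : ℕ} (i : Fin k) : Finset (Fin (k + k)) := insert (dy i) ((univ.erase i).image sx)

/-- The monomial y_i times the product of all x_l. -/
def monB {k : ℕ} (i : Fin k) : Finset (Fin (k + k)) := insert (dy i) (univ.image sx)

lemma dy_mem_monA {k : ℕ} (i j : Fin k) : dy j ∈ monA i ↔ j = i := by
  unfold monA
  simp only [mem_insert, mem_image, mem_erase, mem_univ, and_true]
  constructor
  · rintro (h | ⟨l, -, h⟩)
    · exact dy_inj h
    · exact absurd h (sx_ne_dy _ _)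
  · rintro rfl
    left; rfl

lemma dy_mem_monB {k : ℕ} (i j : Fin k) : dy j ∈ monB i ↔ j = i := by
  unfold monB
  simp only [mem_insert, mem_image, mem_univ, true_and]
  constructor
  · rintro (h | ⟨l, h⟩)
    · exact dy_inj h
    · exact absurd h (sx_ne_dy _ _)
  · rintro rfl
    left; rfl

lemma sx_mem_monA {k : ℕ} (i j : Fin k) : sx j ∈ monA i ↔ j ≠ i := by
  unfold monA
  simp only [mem_insert, mem_image, mem_erase, mem_univ, and_true]
  constructor
  · rintro (h | ⟨l, hl, h⟩)
    · exact absurd h (sx_ne_dy _ _)
    · rw [← sx_inj h]; exact hl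
  · intro h
    right; exact ⟨j, h, rfl⟩

lemma sx_mem_monB {k : ℕ} (i j : Fin k) : sx j ∈ monB i := by
  unfold monB
  simp only [mem_insert, mem_image, mem_univ, true_and]
  right; exact ⟨j, rfl⟩

lemma monA_inj {k : ℕ} : Function.Injective (monA (k := k)) := by
  intro i j h
  have : dy i ∈ monA j := by rw [← h]; exact (dy_mem_monA i i).mpr rfl
  exact (dy_mem_monA j i).mp this

lemma monB_inj {k : ℕ} : Function.Injective (monB (k := k)) := by
  intro i j h
  have : dy i ∈ monB j := by rw [← h]; exact (dy_mem_monB i i).mpr rfl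
  exact (dy_mem_monB j i).mp this

lemma monA_ne_monB {k : ℕ} (i j : Fin k) : monA i ≠ monB j := by
  intro h
  have : sx i ∈ monA i := by rw [h]; exact sx_mem_monB j i
  exact (sx_mem_monA i i).mp this rfl

lemma prod_monA {k : ℕ} (i : Fin k) (z : Fin (k + k) → Bool) :
    ∏ j ∈ monA i, bv (z j) = bv (z (dy i)) * ∏ l ∈ univ.erase i, bv (z (sx l)) := by
  unfold monA
  rw [prod_insert, prod_image]
  · intro a _ b _ h; exact sx_inj h
  · simp only [mem_image, mem_erase, mem_univ, and_true, not_exists, not_and]
    intro l _; exact sx_ne_dy _ _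

lemma prod_monB {k : ℕ} (i : Fin k) (z : Fin (k + k) → Bool) :
    ∏ j ∈ monB i, bv (z j) = bv (z (dy i)) * ∏ l, bv (z (sx l)) := by
  unfold monB
  rw [prod_insert, prod_image]
  · intro a _ b _ h; exact sx_inj h
  · simp only [mem_image, mem_univ, true_and, not_exists]
    intro l; exact sx_ne_dy _ _

lemma bv_sel {k : ℕ} (z : Fin (k + k) → Bool) :
    bv (sel k z) = ∑ i : Fin k, (∏ j ∈ monA i, bv (z j) - ∏ j ∈ monB i, bv (z j)) := by
  have h1 : ∀ i : Fin k, (∏ j ∈ monA i, bv (z j) - ∏ j ∈ monB i, bv (z j))
      = if (z (dy i) = true ∧ z (sx i) = false ∧ ∀ l : Fin k, l ≠ i → z (sx l) = true)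
        then 1 else 0 := by
    intro i
    rw [prod_monA, prod_monB, ← Finset.mul_prod_erase univ (fun l => bv (z (sx l))) (mem_univ i)]
    split_ifs with h
    · obtain ⟨ha, hb, hc⟩ := h
      have : ∏ l ∈ univ.erase i, bv (z (sx l)) = 1 := by
        apply Finset.prod_eq_one
        intro l hl
        simp [bv, hc l (Finset.ne_of_mem_erase hl)]
      rw [this]
      simp [bv, ha, hb]
    · by_cases ha : z (dy i) = true
      · by_cases hb : z (sx i) = false
        · have hc : ∃ l : Fin k, l ≠ i ∧ z (sx l) ≠ true := by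
            by_contra hcon
            push Not at hcon
            exact h ⟨ha, hb, hcon⟩
          obtain ⟨l, hl, hz⟩ := hc
          have : ∏ l ∈ univ.erase i, bv (z (sx l)) = 0 := by
            apply Finset.prod_eq_zero (Finset.mem_erase.mpr ⟨hl, mem_univ l⟩)
            simp [bv, hz]
          rw [this]
          ring
        · have hb' : z (sx i) = true := by
            cases hz : z (sx i)
            · exact absurd hz hb
            · rfl
          simp [bv, ha, hb']
      · simp [bv, ha]
  rw [Finset.sum_congr rfl (fun i _ => h1 i)]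
  by_cases hex : ∃ i : Fin k, z (dy i) = true ∧ z (sx i) = false ∧
      ∀ l : Fin k, l ≠ i → z (sx l) = true
  · obtain ⟨i, hi⟩ := hex
    have hs : sel k z = true := by
      unfold sel
      exact decide_eq_true ⟨i, hi⟩
    rw [hs, Finset.sum_eq_single i]
    · rw [if_pos hi]; simp [bv]
    · intro j _ hji
      rw [if_neg]
      rintro ⟨_, hb, _⟩
      have := hi.2.2 j hji
      rw [this] at hb
      exact absurd hb (by simp)
    · intro h; exact absurd (mem_univ i) h
  · have hs : sel k z = false := by
      unfold sel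
      exact decide_eq_false hex
    rw [hs]
    push Not at hex
    rw [Finset.sum_eq_zero]
    · simp [bv]
    · intro i _
      rw [if_neg]
      rintro ⟨ha, hb, hc⟩
      obtain ⟨l, hl, hz⟩ := hex i ha hb
      exact hz (hc l hl)

lemma coeff_sel {k : ℕ} (S : Finset (Fin (k + k))) :
    mobiusCoeff (sel k) S
      = ∑ i : Fin k, ((if S = monA i then (1 : ℝ) else 0) - (if S = monB i then (1 : ℝ) else 0)) := by
  have := mobius_unique (sel k) (fun S => ∑ i : Fin k,
    ((if S = monA i then (1 : ℝ) else 0) - (if S = monB i then (1 : ℝ) else 0))) ?_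
  · rw [this]
  · intro z
    rw [bv_sel]
    simp only [Finset.sum_mul, sub_mul]
    rw [Finset.sum_comm]
    refine Finset.sum_congr rfl ?_
    intro i _
    rw [Finset.sum_sub_distrib]
    congr 1
    · rw [Finset.sum_eq_single (monA i)]
      · simp
      · intro S _ hS; simp [hS]
      · intro h; exact absurd (mem_univ _) h
    · rw [Finset.sum_eq_single (monB i)]
      · simp
      · intro S _ hS; simp [hS]
      · intro h; exact absurd (mem_univ _) h

lemma support_sel (k : ℕ) :
    mobiusSupport (sel k) = (univ.image (monA (k := k))) ∪ (univ.image (monB (k := k))) := by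
  ext S
  unfold mobiusSupport
  simp only [mem_filter, mem_univ, true_and, mem_union, mem_image]
  rw [coeff_sel]
  constructor
  · intro h
    by_contra hcon
    push Not at hcon
    apply h
    apply Finset.sum_eq_zero
    intro i _
    rw [if_neg (fun e => hcon.1 i e.symm), if_neg (fun e => hcon.2 i e.symm), sub_zero]
  · rintro (⟨i, rfl⟩ | ⟨i, rfl⟩)
    · have : (∑ j : Fin k, ((if monA i = monA j then (1 : ℝ) else 0)
          - (if monA i = monB j then (1 : ℝ) else 0))) = 1 := by
        rw [Finset.sum_eq_single i]
        · simp [monA_ne_monB]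
        · intro j _ hj
          rw [if_neg (fun e => hj (monA_inj e).symm), if_neg (monA_ne_monB i j), sub_zero]
        · intro h; exact absurd (mem_univ _) h
      rw [this]
      exact one_ne_zero
    · have : (∑ j : Fin k, ((if monB i = monA j then (1 : ℝ) else 0)
          - (if monB i = monB j then (1 : ℝ) else 0))) = -1 := by
        rw [Finset.sum_eq_single i]
        · rw [if_neg (fun e => monA_ne_monB i i e.symm)]; simp
        · intro j _ hj
          rw [if_neg (fun e => monA_ne_monB j i e.symm), if_neg (fun e => hj (monB_inj e).symm),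
            sub_zero]
        · intro h; exact absurd (mem_univ _) h
      rw [this]
      norm_num

/-- The Mobius sparsity of `sel k` is 2k. -/
lemma spar_sel (k : ℕ) : spar (sel k) = 2 * k := by
  unfold spar
  rw [support_sel, Finset.card_union_of_disjoint, Finset.card_image_of_injective _ monA_inj,
    Finset.card_image_of_injective _ monB_inj]
  · simp; ring
  · rw [Finset.disjoint_left]
    intro S hS hS'
    simp only [mem_image, mem_univ, true_and] at hS hS'
    obtain ⟨i, rfl⟩ := hS
    obtain ⟨j, hj⟩ := hS'
    exact monA_ne_monB i j hj.symm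

/-- The input with all selector variables equal to 1 and data y. -/
def inp {k : ℕ} (y : Fin k → Bool) : Fin (k + k) → Bool :=
  Fin.append (fun _ => true) y

lemma inp_sx {k : ℕ} (y : Fin k → Bool) (i : Fin k) : inp y (sx i) = true := by
  unfold inp sx
  rw [Fin.append_left]

lemma inp_dy {k : ℕ} (y : Fin k → Bool) (i : Fin k) : inp y (dy i) = y i := by
  unfold inp dy
  rw [Fin.append_right]

/-- The Mobius pattern complexity of `sel k` is at least 2 to the power k. -/
lemma pat_sel (k : ℕ) : 2 ^ k ≤ patComplexity (sel k) := by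
  unfold patComplexity
  have hinj : Function.Injective (fun y : Fin k → Bool => mobiusPattern (sel k) (inp y)) := by
    intro y y' h
    funext i
    have hmem : monA i ∈ mobiusSupport (sel k) := by
      rw [support_sel]
      exact Finset.mem_union_left _ (Finset.mem_image_of_mem _ (mem_univ i))
    have h1 : andOn (monA i) (inp y) = andOn (monA i) (inp y') := congrFun h ⟨monA i, hmem⟩
    have h2 : ∀ w : Fin k → Bool, andOn (monA i) (inp w) = w i := by
      intro w
      unfold andOn
      cases hw : w i
      · apply decide_eq_false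
        intro hall
        have := hall (dy i) ((dy_mem_monA i i).mpr rfl)
        rw [inp_dy, hw] at this
        exact absurd this (by simp)
      · apply decide_eq_true
        intro j hj
        unfold monA at hj
        rw [mem_insert, mem_image] at hj
        rcases hj with rfl | ⟨l, _, rfl⟩
        · rw [inp_dy, hw]
        · exact inp_sx w l
    rw [h2, h2] at h1
    exact h1
  have hcard : Set.ncard (Set.range (fun y : Fin k → Bool => mobiusPattern (sel k) (inp y)))
      = 2 ^ k := by
    rw [← Set.image_univ, Set.ncard_image_of_injective _ hinj, Set.ncard_univ, Nat.card_eq_fintype_card]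
    simp
  rw [← hcard]
  apply Set.ncard_le_ncard
  · rintro _ ⟨y, rfl⟩
    exact ⟨inp y, rfl⟩
  · exact Set.toFinite _

/-- There are no constants `δ > 0` and `C > 0` such that the Mobius pattern complexity of every
Boolean function f is at most `2 ^ (C * spar f ^ (1 - δ))`. -/
theorem result :
    ¬ ∃ δ C : ℝ, 0 < δ ∧ 0 < C ∧ ∀ (n : ℕ) (f : (Fin n → Bool) → Bool),
      (patComplexity f : ℝ) ≤ (2 : ℝ) ^ (C * (spar f : ℝ) ^ (1 - δ)) := by
  rintro ⟨δ, C, hδ, hC, h⟩
  obtain ⟨k, hk⟩ := exists_nat_gt ((2 * C) ^ (1 / δ))
  have hpos : 0 < (2 * C) ^ (1 / δ) := Real.rpow_pos_of_pos (by linarith) _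
  have hk0 : (0 : ℝ) < k := hpos.trans hk
  have h1 := h (k + k) (sel k)
  rw [spar_sel] at h1
  have h2 : ((2 : ℝ) ^ (k : ℝ)) ≤ (patComplexity (sel k) : ℝ) := by
    rw [Real.rpow_natCast]
    exact_mod_cast pat_sel k
  have h3 : (2 : ℝ) ^ (k : ℝ) ≤ (2 : ℝ) ^ (C * ((2 * k : ℕ) : ℝ) ^ (1 - δ)) := h2.trans h1
  rw [Real.rpow_le_rpow_left_iff (by norm_num)] at h3
  push_cast at h3
  have h2k : (0 : ℝ) < 2 * k := by linarith
  rw [Real.rpow_sub h2k, Real.rpow_one] at h3
  have h4 : 2 * C < (2 * (k : ℝ)) ^ δ := by
    have h5 : (2 * C) ^ (1 / δ) < 2 * (k : ℝ) := by linarith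
    have h6 := Real.rpow_lt_rpow hpos.le h5 hδ
    rw [← Real.rpow_mul (by linarith), one_div, inv_mul_cancel₀ hδ.ne', Real.rpow_one] at h6
    exact h6
  have hpow : (0 : ℝ) < (2 * (k : ℝ)) ^ δ := Real.rpow_pos_of_pos h2k _
  have h7 : C * (2 * k / (2 * (k : ℝ)) ^ δ) < k := by
    rw [mul_div_assoc', div_lt_iff₀ hpow]
    nlinarith
  linarith

end Pool.Agent.Results.MP_e3e9ef_lc.PatternLinear
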